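import Pool.Agent.K3h28.NR.Stm

/-!
# Simple vectors are linked (brick LINK for helper28)
-/

set_option autoImplicit false

open Matrix
open scoped ComplexOrder

namespace Pool.Agent.K3h23.NR

open Pool.Agent.Helper774 Pool.Agent.K3h28.NR

section general
variable {n : ℕ} (A : Matrix (Fin n) (Fin n) ℂ)

theorem pen_herm (p : ℝ × ℂ) : (pen A p).IsHermitian := by
  unfold pen Matrix.IsHermitian
  rw [conjTranspose_add, conjTranspose_add, conjTranspose_conjTranspose]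
  rw [conjTranspose_smul (p.1 : ℂ), conjTranspose_one]
  have : star (p.1 : ℂ) = p.1 := Complex.conj_ofReal _
  rw [this]
  abel

theorem pen_add (p q : ℝ × ℂ) : pen A (p + q) = pen A p + pen A q := by
  unfold pen
  rw [Prod.fst_add, Prod.snd_add, Complex.ofReal_add, add_smul, add_smul, conjTranspose_add]
  abel

theorem pen_smul (c : ℝ) (p : ℝ × ℂ) : pen A (c • p) = (c : ℂ) • pen A p := by
  unfold pen
  have h1 : (c • p).1 = c * p.1 := rfl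
  have h2 : (c • p).2 = (c : ℂ) * p.2 := by
    rw [Prod.smul_snd, Complex.real_smul]
  rw [h1, h2, Complex.ofReal_mul, mul_smul, mul_smul, smul_add, smul_add]
  rw [conjTranspose_smul (c : ℂ)]
  have : star (c : ℂ) = c := Complex.conj_ofReal _
  rw [this]

theorem pen_one : pen A (1, 0) = 1 := by
  unfold pen
  simp

theorem pen_mulVec (p : ℝ × ℂ) (v : Fin n → ℂ) :
    pen A p *ᵥ v = (p.1 : ℂ) • v + p.2 • (A *ᵥ v) + starRingEnd ℂ p.2 • (Aᴴ *ᵥ v) := by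
  unfold pen
  rw [add_mulVec, add_mulVec, smul_mulVec, one_mulVec, smul_mulVec, conjTranspose_smul,
    smul_mulVec]
  rfl

theorem form_eq (p : ℝ × ℂ) (u v : Fin n → ℂ) :
    star u ⬝ᵥ (pen A p *ᵥ v) = (p.1 : ℂ) * (star u ⬝ᵥ v) + p.2 * (star u ⬝ᵥ (A *ᵥ v)) +
      starRingEnd ℂ p.2 * (star u ⬝ᵥ (Aᴴ *ᵥ v)) := by
  rw [pen_mulVec, dotProduct_add, dotProduct_add, dotProduct_smul, dotProduct_smul,
    dotProduct_smul, smul_eq_mul, smul_eq_mul, smul_eq_mul]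

/-- `p ↦ pen(p) ξ` -/
noncomputable def phi (ξ : Fin n → ℂ) : (ℝ × ℂ) →ₗ[ℝ] (Fin n → ℂ) where
  toFun p := pen A p *ᵥ ξ
  map_add' p q := by rw [pen_add, add_mulVec]
  map_smul' c p := by
    rw [pen_smul, smul_mulVec]
    funext i
    simp [Complex.real_smul]

/-- `p ↦ ξ* pen(p) ξ` -/
noncomputable def ef (ξ : Fin n → ℂ) : (ℝ × ℂ) →ₗ[ℝ] ℝ where
  toFun p := (star ξ ⬝ᵥ (pen A p *ᵥ ξ)).re
  map_add' p q := by rw [pen_add, add_mulVec, dotProduct_add, Complex.add_re]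
  map_smul' c p := by
    rw [pen_smul, smul_mulVec, dotProduct_smul, smul_eq_mul, Complex.re_ofReal_mul]
    rfl

theorem ef_apply (ξ : Fin n → ℂ) (p : ℝ × ℂ) : ef A ξ p = (star ξ ⬝ᵥ (pen A p *ᵥ ξ)).re := rfl

theorem form_real (ξ : Fin n → ℂ) (p : ℝ × ℂ) :
    star ξ ⬝ᵥ (pen A p *ᵥ ξ) = ((ef A ξ p : ℝ) : ℂ) := by
  have h1 := quad_conjTranspose (pen A p) ξ ξ
  rw [(pen_herm A p)] at h1
  rw [ef_apply]
  exact (Complex.conj_eq_iff_re.1 h1.symm).symm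

variable {A}

theorem ef_nonneg {ξ : Fin n → ℂ} {p : ℝ × ℂ} (hp : (pen A p).PosSemidef) : 0 ≤ ef A ξ p := by
  have h1 := hp.dotProduct_mulVec_nonneg ξ
  rw [form_real] at h1
  exact_mod_cast h1

theorem ef_zero {ξ : Fin n → ℂ} {p : ℝ × ℂ} (hp : (pen A p).PosSemidef) (h : ef A ξ p = 0) :
    pen A p *ᵥ ξ = 0 := by
  rw [← hp.dotProduct_mulVec_zero_iff, form_real, h, Complex.ofReal_zero]

theorem ker_phi (hA : NoCommon A) {ξ : Fin n → ℂ} (hξ : ξ ≠ 0) {p₁ p : ℝ × ℂ} (hp₁ : p₁ ≠ 0)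
    (h1 : pen A p₁ *ᵥ ξ = 0) (h : pen A p *ᵥ ξ = 0) : ∃ t : ℝ, p = t • p₁ := by
  rw [pen_mulVec] at h1 h
  obtain ⟨a, w⟩ := p
  obtain ⟨a₁, w₁⟩ := p₁
  simp only at h1 h
  have e : ∀ i, (a : ℂ) * ξ i + w * (A *ᵥ ξ) i + starRingEnd ℂ w * (Aᴴ *ᵥ ξ) i = 0 := by
    intro i
    simpa using congrFun h i
  have e₁ : ∀ i, (a₁ : ℂ) * ξ i + w₁ * (A *ᵥ ξ) i + starRingEnd ℂ w₁ * (Aᴴ *ᵥ ξ) i = 0 := by
    intro i
    simpa using congrFun h1 i
  by_cases hD : w * starRingEnd ℂ w₁ - starRingEnd ℂ w * w₁ = 0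
  · have hw₁ : w₁ ≠ 0 := by
      rintro rfl
      apply hp₁
      obtain ⟨i, hi⟩ := Function.ne_iff.1 hξ
      have h2 := e₁ i
      rw [zero_mul, map_zero, zero_mul, add_zero, add_zero] at h2
      rcases mul_eq_zero.1 h2 with h3 | h3
      · rw [Complex.ofReal_eq_zero.1 h3]
        rfl
      · exact absurd h3 hi
    have hcw₁ : starRingEnd ℂ w₁ ≠ 0 := by
      rwa [Ne, map_eq_zero]
    have hreal : starRingEnd ℂ (w / w₁) = w / w₁ := by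
      rw [map_div₀, div_eq_div_iff hcw₁ hw₁]
      linear_combination -hD
    obtain ⟨t, ht⟩ := Complex.conj_eq_iff_real.1 hreal
    have hw : w = t * w₁ := by
      rw [← ht, div_mul_cancel₀ _ hw₁]
    have hcw : starRingEnd ℂ w = t * starRingEnd ℂ w₁ := by
      rw [hw, map_mul, Complex.conj_ofReal]
    refine ⟨t, ?_⟩
    obtain ⟨i, hi⟩ := Function.ne_iff.1 hξ
    have h2 := e i
    have h3 := e₁ i
    rw [hw, map_mul, Complex.conj_ofReal] at h2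
    have h4 : ((a : ℂ) - t * a₁) * ξ i = 0 := by
      linear_combination h2 - t * h3
    rcases mul_eq_zero.1 h4 with h5 | h5
    · have h6 : a = t * a₁ := by
        have : ((a - t * a₁ : ℝ) : ℂ) = 0 := by
          push_cast
          exact h5
        have := Complex.ofReal_eq_zero.1 this
        linarith
      refine Prod.ext h6 ?_
      show w = t • w₁
      rw [Complex.real_smul]
      exact hw
    · exact absurd h5 hi
  · exfalso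
    refine hA ξ hξ (-((a : ℂ) * starRingEnd ℂ w₁ - a₁ * starRingEnd ℂ w) /
      (w * starRingEnd ℂ w₁ - starRingEnd ℂ w * w₁)) (((a : ℂ) * w₁ - a₁ * w) /
      (w * starRingEnd ℂ w₁ - starRingEnd ℂ w * w₁)) ⟨?_, ?_⟩
    · funext i
      rw [Pi.smul_apply, smul_eq_mul, div_mul_eq_mul_div, eq_div_iff hD]
      linear_combination starRingEnd ℂ w₁ * e i - starRingEnd ℂ w * e₁ i
    · funext i
      rw [Pi.smul_apply, smul_eq_mul, div_mul_eq_mul_div, eq_div_iff hD]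
      linear_combination -(w₁ * e i) + w * e₁ i

theorem factor {W U : Type*} [AddCommGroup W] [Module ℝ W] [AddCommGroup U] [Module ℝ U]
    (φ : W →ₗ[ℝ] U) (ω : W →ₗ[ℝ] ℝ) (h : LinearMap.ker φ ≤ LinearMap.ker ω) :
    ∃ L : U →ₗ[ℝ] ℝ, ∀ p, L (φ p) = ω p := by
  obtain ⟨L, hL⟩ := LinearMap.exists_extend (((LinearMap.ker φ).liftQ ω h) ∘ₗ
    (φ.quotKerEquivRange.symm : LinearMap.range φ →ₗ[ℝ] W ⧸ LinearMap.ker φ))
  refine ⟨L, fun p => ?_⟩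
  have h1 := LinearMap.congr_fun hL ⟨φ p, LinearMap.mem_range_self φ p⟩
  have h2 : φ.quotKerEquivRange.symm ⟨φ p, LinearMap.mem_range_self φ p⟩ =
      (LinearMap.ker φ).mkQ p := by
    rw [LinearEquiv.symm_apply_eq]
    rfl
  rw [LinearMap.comp_apply, LinearMap.comp_apply, LinearEquiv.coe_coe, h2] at h1
  exact h1

/-- Cauchy-Schwarz for a positive semidefinite matrix -/
theorem entry_le {H : Matrix (Fin n) (Fin n) ℂ} (hH : H.PosSemidef) (ξ : Fin n → ℂ)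
    (i : Fin n) : ‖(H *ᵥ ξ) i‖ ^ 2 ≤ ‖H i i‖ * (star ξ ⬝ᵥ (H *ᵥ ξ)).re := by
  obtain ⟨R, rfl⟩ := exists_factor_psd H hH
  have h1 : ((Rᴴ * R) *ᵥ ξ) i = ∑ k, starRingEnd ℂ (R k i) * (R *ᵥ ξ) k := by
    rw [← mulVec_mulVec]
    rfl
  have h2 : (Rᴴ * R) i i = ((∑ k, ‖R k i‖ ^ 2 : ℝ) : ℂ) := by
    rw [mul_apply]
    push_cast
    refine Finset.sum_congr rfl fun k _ => ?_
    rw [conjTranspose_apply]
    exact Complex.conj_mul' _
  have h3 : star ξ ⬝ᵥ ((Rᴴ * R) *ᵥ ξ) = ((∑ k, ‖(R *ᵥ ξ) k‖ ^ 2 : ℝ) : ℂ) := by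
    rw [← dot_self_eq, star_mulVec, ← dotProduct_mulVec, mulVec_mulVec]
  rw [h1, h2, h3, Complex.ofReal_re, Complex.norm_real, Real.norm_eq_abs,
    abs_of_nonneg (Finset.sum_nonneg fun k _ => sq_nonneg _)]
  refine le_trans ?_ (Finset.sum_mul_sq_le_sq_mul_sq Finset.univ _ _)
  refine pow_le_pow_left₀ (norm_nonneg _) ?_ 2
  refine (norm_sum_le _ _).trans (Finset.sum_le_sum fun k _ => ?_)
  rw [norm_mul, RCLike.norm_conj]

theorem diag_le (p : ℝ × ℂ) (i : Fin n) :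
    ‖pen A p i i‖ ≤ (1 + 2 * ∑ j, ‖A j j‖) * ‖p‖ := by
  have h1 : pen A p i i = (p.1 : ℂ) + p.2 * A i i + starRingEnd ℂ (p.2 * A i i) := by
    unfold pen
    simp
  have h2 : ‖(p.1 : ℂ)‖ ≤ ‖p‖ := by
    rw [Complex.norm_real]
    exact norm_fst_le p
  have h3 : ‖p.2 * A i i‖ ≤ ‖p‖ * ∑ j, ‖A j j‖ := by
    rw [norm_mul]
    refine mul_le_mul (norm_snd_le p) ?_ (norm_nonneg _) (norm_nonneg _)
    exact Finset.single_le_sum (f := fun j => ‖A j j‖) (fun j _ => norm_nonneg _)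
      (Finset.mem_univ i)
  rw [h1]
  refine (norm_add_le _ _).trans ?_
  rw [RCLike.norm_conj]
  have h4 := norm_add_le (p.1 : ℂ) (p.2 * A i i)
  linarith

theorem bound_a (hA : NoCommon A) {ξ : Fin n → ℂ} (hξ : ξ ≠ 0) {p₁ : ℝ × ℂ} (hp₁ : p₁ ≠ 0)
    (h1 : pen A p₁ *ᵥ ξ = 0) (ω : (ℝ × ℂ) →ₗ[ℝ] ℝ) (hω : ω p₁ = 0) :
    ∃ K : ℝ, 0 ≤ K ∧ ∀ p, (pen A p).PosSemidef → ω p ^ 2 ≤ K * ‖p‖ * ef A ξ p := by
  obtain ⟨L, hL⟩ := factor (phi A ξ) ω (by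
    intro p hp
    obtain ⟨t, rfl⟩ := ker_phi hA hξ hp₁ h1 (LinearMap.mem_ker.1 hp)
    rw [LinearMap.mem_ker, map_smul, hω, smul_zero])
  obtain ⟨C, hC, hCL⟩ : ∃ C : ℝ, 0 ≤ C ∧ ∀ x, |L x| ≤ C * ‖x‖ := by
    refine ⟨‖LinearMap.toContinuousLinearMap L‖, norm_nonneg _, fun x => ?_⟩
    exact (LinearMap.toContinuousLinearMap L).le_opNorm x
  have hS : (0 : ℝ) ≤ 1 + 2 * ∑ j, ‖A j j‖ := by positivity
  refine ⟨C ^ 2 * (1 + 2 * ∑ j, ‖A j j‖), by positivity, fun p hp => ?_⟩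
  have he := ef_nonneg (ξ := ξ) hp
  have h2 : ‖phi A ξ p‖ ≤ √((1 + 2 * ∑ j, ‖A j j‖) * ‖p‖ * ef A ξ p) := by
    rw [pi_norm_le_iff_of_nonneg (Real.sqrt_nonneg _)]
    intro i
    refine Real.le_sqrt_of_sq_le ?_
    refine (entry_le hp ξ i).trans ?_
    exact mul_le_mul_of_nonneg_right (diag_le p i) he
  have h3 : ‖phi A ξ p‖ ^ 2 ≤ (1 + 2 * ∑ j, ‖A j j‖) * ‖p‖ * ef A ξ p := by
    have := pow_le_pow_left₀ (norm_nonneg _) h2 2
    rwa [Real.sq_sqrt (by positivity)] at this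
  have h4 : ω p ^ 2 ≤ C ^ 2 * ‖phi A ξ p‖ ^ 2 := by
    rw [← hL p, ← mul_pow, ← sq_abs (L (phi A ξ p))]
    exact pow_le_pow_left₀ (abs_nonneg _) (hCL _) 2
  calc ω p ^ 2 ≤ C ^ 2 * ‖phi A ξ p‖ ^ 2 := h4
    _ ≤ C ^ 2 * ((1 + 2 * ∑ j, ‖A j j‖) * ‖p‖ * ef A ξ p) :=
        mul_le_mul_of_nonneg_left h3 (sq_nonneg C)
    _ = _ := by ring

theorem isClosed_psd : IsClosed {p : ℝ × ℂ | (pen A p).PosSemidef} := by
  have h1 : {p : ℝ × ℂ | (pen A p).PosSemidef} = ⋂ x : Fin n → ℂ, {p | 0 ≤ ef A x p} := by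
    ext p
    rw [Set.mem_iInter]
    constructor
    · intro h x
      exact ef_nonneg h
    · intro h
      refine PosSemidef.of_dotProduct_mulVec_nonneg (pen_herm A p) fun x => ?_
      rw [form_real]
      exact_mod_cast h x
  rw [h1]
  refine isClosed_iInter fun x => ?_
  exact isClosed_le continuous_const (LinearMap.continuous_of_finiteDimensional (ef A x))

theorem bound_c (f : (ℝ × ℂ) →ₗ[ℝ] ℝ) (hf : ∀ p, (pen A p).PosSemidef → p ≠ 0 → 0 < f p) :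
    ∃ c : ℝ, 0 < c ∧ ∀ p, (pen A p).PosSemidef → c * ‖p‖ ≤ f p := by
  have hK : IsCompact ({p : ℝ × ℂ | (pen A p).PosSemidef} ∩ Metric.sphere 0 1) :=
    (isCompact_sphere 0 1).inter_left isClosed_psd
  rcases Set.eq_empty_or_nonempty ({p : ℝ × ℂ | (pen A p).PosSemidef} ∩ Metric.sphere 0 1) with
    hemp | hne
  · refine ⟨1, one_pos, fun p hp => ?_⟩
    by_cases h0 : p = 0
    · rw [h0, norm_zero, mul_zero, map_zero]
    · exfalso
      have hn : ‖p‖ ≠ 0 := norm_ne_zero_iff.2 h0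
      have h1 : (‖p‖⁻¹ • p) ∈ ({p : ℝ × ℂ | (pen A p).PosSemidef} ∩ Metric.sphere 0 1) := by
        constructor
        · show (pen A (‖p‖⁻¹ • p)).PosSemidef
          rw [pen_smul]
          exact hp.smul (by exact_mod_cast (inv_nonneg.2 (norm_nonneg p)))
        · rw [mem_sphere_zero_iff_norm, norm_smul, norm_inv, norm_norm, inv_mul_cancel₀ hn]
      rw [hemp] at h1
      exact h1
  · obtain ⟨q, hq, hmin⟩ := hK.exists_isMinOn hne
      (LinearMap.continuous_of_finiteDimensional f).continuousOn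
    have hq0 : q ≠ 0 := by
      rintro rfl
      have := hq.2
      rw [mem_sphere_zero_iff_norm, norm_zero] at this
      exact zero_ne_one this
    refine ⟨f q, hf q hq.1 hq0, fun p hp => ?_⟩
    by_cases h0 : p = 0
    · rw [h0, norm_zero, mul_zero, map_zero]
    · have hn : ‖p‖ ≠ 0 := norm_ne_zero_iff.2 h0
      have h1 : (‖p‖⁻¹ • p) ∈ ({p : ℝ × ℂ | (pen A p).PosSemidef} ∩ Metric.sphere 0 1) := by
        constructor
        · show (pen A (‖p‖⁻¹ • p)).PosSemidef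
          rw [pen_smul]
          exact hp.smul (by exact_mod_cast (inv_nonneg.2 (norm_nonneg p)))
        · rw [mem_sphere_zero_iff_norm, norm_smul, norm_inv, norm_norm, inv_mul_cancel₀ hn]
      have h2 := hmin h1
      have h3 : f q ≤ f (‖p‖⁻¹ • p) := h2
      rw [map_smul, smul_eq_mul] at h3
      have h4 : 0 < ‖p‖ := norm_pos_iff.2 h0
      calc f q * ‖p‖ ≤ (‖p‖⁻¹ * f p) * ‖p‖ := mul_le_mul_of_nonneg_right h3 h4.le
        _ = f p := by field_simp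

end general

section two

theorem quad2 (a d x : ℝ) (y : Fin 2 → ℂ) :
    star y ⬝ᵥ ((!![(a : ℂ), (x : ℂ); (x : ℂ), (d : ℂ)]) *ᵥ y) =
      ((a * ‖y 0‖ ^ 2 + d * ‖y 1‖ ^ 2 + 2 * x * (starRingEnd ℂ (y 0) * y 1).re : ℝ) : ℂ) := by
  have h0 : (starRingEnd ℂ (y 0)) * y 0 = ((‖y 0‖ ^ 2 : ℝ) : ℂ) := by
    rw [Complex.conj_mul']
    push_cast
    rfl
  have h1 : (starRingEnd ℂ (y 1)) * y 1 = ((‖y 1‖ ^ 2 : ℝ) : ℂ) := by
    rw [Complex.conj_mul']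
    push_cast
    rfl
  have h2 : starRingEnd ℂ (y 0) * y 1 + starRingEnd ℂ (y 1) * y 0 =
      ((2 * (starRingEnd ℂ (y 0) * y 1).re : ℝ) : ℂ) := by
    have := Complex.add_conj (starRingEnd ℂ (y 0) * y 1)
    rw [map_mul, Complex.conj_conj, mul_comm (y 0)] at this
    exact this
  have h3 : star y ⬝ᵥ ((!![(a : ℂ), (x : ℂ); (x : ℂ), (d : ℂ)]) *ᵥ y) =
      a * (starRingEnd ℂ (y 0) * y 0) + d * (starRingEnd ℂ (y 1) * y 1) +
        x * (starRingEnd ℂ (y 0) * y 1 + starRingEnd ℂ (y 1) * y 0) := by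
    simp [dotProduct, mulVec, Fin.sum_univ_two]
    ring
  rw [h3, h0, h1, h2]
  push_cast
  ring

theorem herm2 (a d x : ℝ) : (!![(a : ℂ), (x : ℂ); (x : ℂ), (d : ℂ)]).IsHermitian := by
  ext i j
  fin_cases i <;> fin_cases j <;> simp

theorem re_sq_le (y : Fin 2 → ℂ) :
    (starRingEnd ℂ (y 0) * y 1).re ^ 2 ≤ ‖y 0‖ ^ 2 * ‖y 1‖ ^ 2 := by
  have h1 := Complex.abs_re_le_norm (starRingEnd ℂ (y 0) * y 1)
  rw [norm_mul, RCLike.norm_conj] at h1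
  rw [← sq_abs, ← mul_pow]
  exact pow_le_pow_left₀ (abs_nonneg _) h1 2

theorem psd2 {a d x : ℝ} (ha : 0 ≤ a) (hd : 0 ≤ d) (hx : x ^ 2 ≤ a * d) :
    (!![(a : ℂ), (x : ℂ); (x : ℂ), (d : ℂ)]).PosSemidef := by
  refine PosSemidef.of_dotProduct_mulVec_nonneg (herm2 a d x) fun y => ?_
  rw [quad2]
  have h1 := re_sq_le y
  have h0 : 0 ≤ a * ‖y 0‖ ^ 2 + d * ‖y 1‖ ^ 2 := by positivity
  have h2 : (2 * x * (starRingEnd ℂ (y 0) * y 1).re) ^ 2 ≤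
      (a * ‖y 0‖ ^ 2 + d * ‖y 1‖ ^ 2) ^ 2 := by
    have h3 : x ^ 2 * (starRingEnd ℂ (y 0) * y 1).re ^ 2 ≤
        (a * d) * (‖y 0‖ ^ 2 * ‖y 1‖ ^ 2) :=
      mul_le_mul hx h1 (sq_nonneg _) (by positivity)
    nlinarith [sq_nonneg (a * ‖y 0‖ ^ 2 - d * ‖y 1‖ ^ 2)]
  have h4 := abs_le_of_sq_le_sq h2 h0
  have h5 : 0 ≤ a * ‖y 0‖ ^ 2 + d * ‖y 1‖ ^ 2 + 2 * x * (starRingEnd ℂ (y 0) * y 1).re := by
    linarith [(abs_le.1 h4).1]
  exact_mod_cast h5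

theorem pd2 {a d x : ℝ} (ha : 0 < a) (hd : 0 < d) (hx : x ^ 2 < a * d) :
    (!![(a : ℂ), (x : ℂ); (x : ℂ), (d : ℂ)]).PosDef := by
  refine PosDef.of_dotProduct_mulVec_pos (herm2 a d x) fun y hy => ?_
  rw [quad2]
  have h1 := re_sq_le y
  have hpos : 0 < a * ‖y 0‖ ^ 2 + d * ‖y 1‖ ^ 2 := by
    by_contra hcon
    apply hy
    have h2 : 0 ≤ a * ‖y 0‖ ^ 2 := by positivity
    have h3 : 0 ≤ d * ‖y 1‖ ^ 2 := by positivity
    have h4 : a * ‖y 0‖ ^ 2 = 0 := by linarith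
    have h5 : d * ‖y 1‖ ^ 2 = 0 := by linarith
    have h6 : y 0 = 0 := by
      rcases mul_eq_zero.1 h4 with h | h
      · exact absurd h ha.ne'
      · simpa using h
    have h7 : y 1 = 0 := by
      rcases mul_eq_zero.1 h5 with h | h
      · exact absurd h hd.ne'
      · simpa using h
    funext i
    fin_cases i
    · exact h6
    · exact h7
  have h2 : (2 * x * (starRingEnd ℂ (y 0) * y 1).re) ^ 2 <
      (a * ‖y 0‖ ^ 2 + d * ‖y 1‖ ^ 2) ^ 2 := by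
    by_cases h0 : ‖y 0‖ ^ 2 * ‖y 1‖ ^ 2 = 0
    · rw [h0] at h1
      have h3 : (starRingEnd ℂ (y 0) * y 1).re ^ 2 = 0 := le_antisymm h1 (sq_nonneg _)
      rw [mul_pow, h3, mul_zero]
      positivity
    · have h0' : 0 < ‖y 0‖ ^ 2 * ‖y 1‖ ^ 2 := lt_of_le_of_ne (by positivity) (Ne.symm h0)
      have h3 : x ^ 2 * (starRingEnd ℂ (y 0) * y 1).re ^ 2 ≤
          x ^ 2 * (‖y 0‖ ^ 2 * ‖y 1‖ ^ 2) :=
        mul_le_mul_of_nonneg_left h1 (sq_nonneg _)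
      have h4 : x ^ 2 * (‖y 0‖ ^ 2 * ‖y 1‖ ^ 2) < (a * d) * (‖y 0‖ ^ 2 * ‖y 1‖ ^ 2) :=
        mul_lt_mul_of_pos_right hx h0'
      nlinarith [sq_nonneg (a * ‖y 0‖ ^ 2 - d * ‖y 1‖ ^ 2)]
  have h4 := abs_lt_of_sq_lt_sq h2 hpos.le
  have h5 : 0 < a * ‖y 0‖ ^ 2 + d * ‖y 1‖ ^ 2 + 2 * x * (starRingEnd ℂ (y 0) * y 1).re := by
    linarith [(abs_lt.1 h4).1]
  exact_mod_cast h5

end two

/-- a real linear functional on `ℝ × ℂ` -/
theorem omega_eq (ω : (ℝ × ℂ) →ₗ[ℝ] ℝ) (p : ℝ × ℂ) :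
    ((ω p : ℝ) : ℂ) = (p.1 : ℂ) * ((ω (1, 0) : ℝ) : ℂ) +
      p.2 * (((ω (0, 1) : ℝ) - Complex.I * (ω (0, Complex.I) : ℝ)) / 2) +
      starRingEnd ℂ (p.2 * (((ω (0, 1) : ℝ) - Complex.I * (ω (0, Complex.I) : ℝ)) / 2)) := by
  have h1 : p = p.1 • ((1, 0) : ℝ × ℂ) + p.2.re • ((0, 1) : ℝ × ℂ) +
      p.2.im • ((0, Complex.I) : ℝ × ℂ) := by
    refine Prod.ext ?_ ?_
    · simp
    · apply Complex.ext <;> simp
  have h2 : ω p = p.1 * ω (1, 0) + p.2.re * ω (0, 1) + p.2.im * ω (0, Complex.I) := by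
    conv_lhs => rw [h1]
    rw [map_add, map_add, map_smul, map_smul, map_smul]
    rfl
  rw [add_assoc, Complex.add_conj, h2]
  have h3 : (p.2 * (((ω (0, 1) : ℝ) - Complex.I * (ω (0, Complex.I) : ℝ)) / 2) : ℂ).re =
      (p.2.re * ω (0, 1) + p.2.im * ω (0, Complex.I)) / 2 := by
    have h4 : (p.2 * (((ω (0, 1) : ℝ) - Complex.I * (ω (0, Complex.I) : ℝ)) / 2) : ℂ) =
        ((1 / 2 : ℝ) : ℂ) * (p.2 * ((ω (0, 1) : ℝ) - Complex.I * (ω (0, Complex.I) : ℝ))) := by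
      push_cast
      ring
    rw [h4, Complex.re_ofReal_mul, Complex.mul_re]
    simp
    ring
  rw [h3]
  push_cast
  ring

theorem t_LINK : S_SCHUR → S_PEN0 → S_LINK := by
  classical
  intro hSch _ n A hn hD hA ξ η hξ hη hind
  by_contra hlink
  unfold Linked at hlink
  push Not at hlink
  obtain ⟨hl1, hl2, hl3⟩ := hlink
  obtain ⟨hξ0, p₁, hp₁, hk₁, hs₁⟩ := hξ
  obtain ⟨hη0, p₂, hp₂, hk₂, hs₂⟩ := hη
  have hind' : ¬ ∃ c : ℂ, ξ = c • η := by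
    rintro ⟨c, hc⟩
    have hc0 : c ≠ 0 := by
      rintro rfl
      exact hξ0 (by rw [hc, zero_smul])
    exact hind ⟨c⁻¹, by rw [hc, smul_smul, inv_mul_cancel₀ hc0, one_smul]⟩
  have hcross : ∀ p, star ξ ⬝ᵥ (pen A p *ᵥ η) = 0 := by
    intro p
    rw [form_eq, hl1, hl2, hl3]
    ring
  have hpen0 : pen A 0 = 0 := by
    have := pen_smul A 0 0
    rwa [zero_smul, Complex.ofReal_zero, zero_smul] at this
  have hp₁0 : p₁ ≠ 0 := by
    rintro rfl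
    exact hind (hs₁ η (by rw [hpen0, zero_mulVec]))
  have hp₂0 : p₂ ≠ 0 := by
    rintro rfl
    exact hind' (hs₂ ξ (by rw [hpen0, zero_mulVec]))
  -- the functional
  obtain ⟨ω, hω0, hω₁, hω₂⟩ : ∃ ω : (ℝ × ℂ) →ₗ[ℝ] ℝ, ω ≠ 0 ∧ ω p₁ = 0 ∧ ω p₂ = 0 := by
    have hlt : Submodule.span ℝ (({p₁, p₂} : Finset (ℝ × ℂ)) : Set (ℝ × ℂ)) < ⊤ := by
      rw [lt_top_iff_ne_top]
      intro htop
      have h1 := finrank_span_finset_le_card (R := ℝ) ({p₁, p₂} : Finset (ℝ × ℂ))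
      have h2 : ({p₁, p₂} : Finset (ℝ × ℂ)).card ≤ 2 := Finset.card_le_two
      unfold Set.finrank at h1
      rw [htop, finrank_top, Module.finrank_prod, Module.finrank_self,
        Complex.finrank_real_complex] at h1
      omega
    obtain ⟨f, hf0, hf⟩ := Submodule.exists_le_ker_of_lt_top _ hlt
    exact ⟨f, hf0, LinearMap.mem_ker.1 (hf (Submodule.subset_span (by simp))),
      LinearMap.mem_ker.1 (hf (Submodule.subset_span (by simp)))⟩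
  obtain ⟨K₁, hK₁, hb₁⟩ := bound_a hA hξ0 hp₁0 hk₁ ω hω₁
  obtain ⟨K₂, hK₂, hb₂⟩ := bound_a hA hη0 hp₂0 hk₂ ω hω₂
  obtain ⟨c, hc, hbc⟩ := bound_c (A := A) (ef A ξ + ef A η) (by
    intro p hp hp0
    by_contra hcon
    rw [LinearMap.add_apply] at hcon
    have h1 := ef_nonneg (ξ := ξ) hp
    have h2 := ef_nonneg (ξ := η) hp
    have h3 : ef A ξ p = 0 := by linarith
    have h4 : ef A η p = 0 := by linarith
    obtain ⟨t, ht⟩ := ker_phi hA hξ0 hp₁0 hk₁ (ef_zero hp h3)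
    have h5 := ef_zero hp h4
    have ht0 : t ≠ 0 := by
      rintro rfl
      exact hp0 (by rw [ht, zero_smul])
    rw [ht, pen_smul, smul_mulVec] at h5
    have h6 : pen A p₁ *ᵥ η = 0 := by
      rcases smul_eq_zero.1 h5 with h7 | h7
      · exact absurd (Complex.ofReal_eq_zero.1 h7) ht0
      · exact h7
    exact hind (hs₁ η h6))
  -- the main inequality
  obtain ⟨K, hK, hbK⟩ : ∃ K : ℝ, 0 ≤ K ∧ ∀ p, (pen A p).PosSemidef →
      ω p ^ 2 ≤ K * (ef A ξ p * ef A η p) := by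
    refine ⟨(K₁ + K₂) / c, by positivity, fun p hp => ?_⟩
    by_cases h0 : p = 0
    · rw [h0, map_zero, map_zero, map_zero]
      simp
    have hn0 : 0 < ‖p‖ := norm_pos_iff.2 h0
    have e₁ := ef_nonneg (ξ := ξ) hp
    have e₂ := ef_nonneg (ξ := η) hp
    have h1 := mul_le_mul_of_nonneg_right (hb₁ p hp) e₂
    have h2 := mul_le_mul_of_nonneg_right (hb₂ p hp) e₁
    have h3 := hbc p hp
    rw [LinearMap.add_apply] at h3
    have h4 := mul_le_mul_of_nonneg_left h3 (sq_nonneg (ω p))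
    rw [div_mul_eq_mul_div, le_div_iff₀ hc]
    have h5 : (ω p ^ 2 * c) * ‖p‖ ≤ ((K₁ + K₂) * (ef A ξ p * ef A η p)) * ‖p‖ := by nlinarith
    exact le_of_mul_le_mul_right h5 hn0
  obtain ⟨γ, hγ, hγK⟩ : ∃ γ : ℝ, 0 < γ ∧ γ ^ 2 * K < 1 := by
    refine ⟨1 / (K + 1), by positivity, ?_⟩
    rw [div_pow, one_pow, div_mul_eq_mul_div, div_lt_one (by positivity)]
    nlinarith
  have hsq : ∀ p, (pen A p).PosSemidef → (γ * ω p) ^ 2 ≤ ef A ξ p * ef A η p := by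
    intro p hp
    have h1 := hbK p hp
    have h2 : 0 ≤ ef A ξ p * ef A η p := mul_nonneg (ef_nonneg hp) (ef_nonneg hp)
    rw [mul_pow]
    have h3 := mul_le_mul_of_nonneg_left h1 (sq_nonneg γ)
    nlinarith
  have hform1 : ∀ (ζ : Fin n → ℂ) (p : ℝ × ℂ), ((ef A ζ p : ℝ) : ℂ) =
      (p.1 : ℂ) * ((ef A ζ (1, 0) : ℝ) : ℂ) + p.2 * (star ζ ⬝ᵥ (A *ᵥ ζ)) +
        starRingEnd ℂ (p.2 * (star ζ ⬝ᵥ (A *ᵥ ζ))) := by
    intro ζ p
    rw [← form_real, ← form_real, pen_one, one_mulVec, form_eq, quad_conjTranspose, map_mul]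
  -- the matrices
  obtain ⟨b, hb⟩ : ∃ b : ℂ, b = ((ω (0, 1) : ℝ) - Complex.I * (ω (0, Complex.I) : ℝ)) / 2 :=
    ⟨_, rfl⟩
  have hform2 : ∀ p : ℝ × ℂ, ((ω p : ℝ) : ℂ) = (p.1 : ℂ) * ((ω (1, 0) : ℝ) : ℂ) + p.2 * b +
      starRingEnd ℂ (p.2 * b) := by
    intro p
    rw [hb]
    exact omega_eq ω p
  obtain ⟨G, hG⟩ : ∃ G : Matrix (Fin 2) (Fin 2) ℂ, G =
      !![((ef A ξ (1, 0) : ℝ) : ℂ), ((γ * ω (1, 0) : ℝ) : ℂ);
        ((γ * ω (1, 0) : ℝ) : ℂ), ((ef A η (1, 0) : ℝ) : ℂ)] := ⟨_, rfl⟩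
  obtain ⟨B, hB⟩ : ∃ B : Matrix (Fin 2) (Fin 2) ℂ, B =
      !![star ξ ⬝ᵥ (A *ᵥ ξ), (γ : ℂ) * b; (γ : ℂ) * b, star η ⬝ᵥ (A *ᵥ η)] := ⟨_, rfl⟩
  have hM : ∀ p : ℝ × ℂ, (p.1 : ℂ) • G + p.2 • B + (p.2 • B)ᴴ =
      !![((ef A ξ p : ℝ) : ℂ), ((γ * ω p : ℝ) : ℂ);
        ((γ * ω p : ℝ) : ℂ), ((ef A η p : ℝ) : ℂ)] := by
    intro p
    have h2 := hform2 p
    have h3 : ((γ * ω p : ℝ) : ℂ) = (p.1 : ℂ) * ((γ * ω (1, 0) : ℝ) : ℂ) +
        p.2 * ((γ : ℂ) * b) + starRingEnd ℂ (p.2 * ((γ : ℂ) * b)) := by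
      rw [Complex.ofReal_mul, h2, map_mul, map_mul, map_mul, Complex.conj_ofReal]
      push_cast
      ring
    rw [h3, hform1 ξ p, hform1 η p, hG, hB]
    ext i j
    fin_cases i <;> fin_cases j <;> simp
  have hone : (pen A (1, 0)).PosSemidef := by
    rw [pen_one]
    exact PosSemidef.one
  have hepos : ∀ ζ : Fin n → ℂ, ζ ≠ 0 → 0 < ef A ζ (1, 0) := by
    intro ζ hζ
    refine lt_of_le_of_ne (ef_nonneg hone) (fun h => hζ ?_)
    have h1 := ef_zero hone h.symm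
    rwa [pen_one, one_mulVec] at h1
  have hGpd : G.PosDef := by
    rw [hG]
    refine pd2 (hepos ξ hξ0) (hepos η hη0) ?_
    have h1 := hbK _ hone
    have h2 : 0 < ef A ξ (1, 0) * ef A η (1, 0) := mul_pos (hepos ξ hξ0) (hepos η hη0)
    rw [mul_pow]
    have h3 := mul_le_mul_of_nonneg_left h1 (sq_nonneg γ)
    nlinarith
  obtain ⟨N, V, hVG, hVB⟩ := hSch n 2 A G B hn hD hGpd (by
    intro p hp
    rw [hM]
    exact psd2 (ef_nonneg hp) (ef_nonneg hp) (hsq p hp))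
  have hsum : ∀ p : ℝ × ℂ, !![((ef A ξ p : ℝ) : ℂ), ((γ * ω p : ℝ) : ℂ);
        ((γ * ω p : ℝ) : ℂ), ((ef A η p : ℝ) : ℂ)] = ∑ q, (V q)ᴴ * pen A p * V q := by
    intro p
    have key : ∀ q, (V q)ᴴ * pen A p * V q = (p.1 : ℂ) • ((V q)ᴴ * V q) +
        p.2 • ((V q)ᴴ * A * V q) + (p.2 • ((V q)ᴴ * A * V q))ᴴ := by
      intro q
      unfold pen
      rw [Matrix.mul_add, Matrix.mul_add, Matrix.add_mul, Matrix.add_mul, Matrix.mul_smul,
        Matrix.mul_one, Matrix.smul_mul, Matrix.mul_smul, Matrix.smul_mul]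
      congr 1
      rw [conjTranspose_smul, conjTranspose_smul, conjTranspose_mul, conjTranspose_mul,
        conjTranspose_conjTranspose, Matrix.mul_smul, Matrix.smul_mul, Matrix.mul_assoc]
    rw [← hM, hVG, hVB, Finset.smul_sum, Finset.smul_sum, conjTranspose_sum,
      ← Finset.sum_add_distrib, ← Finset.sum_add_distrib]
    exact Finset.sum_congr rfl fun q _ => (key q).symm
  have hentry : ∀ (p : ℝ × ℂ) (q : Fin N) (i j : Fin 2), ((V q)ᴴ * pen A p * V q) i j =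
      star (V q *ᵥ Pi.single i 1) ⬝ᵥ (pen A p *ᵥ (V q *ᵥ Pi.single j 1)) := by
    intro p q i j
    have h1 : ((V q)ᴴ * pen A p * V q) i j =
        star (Pi.single i 1 : Fin 2 → ℂ) ⬝ᵥ (((V q)ᴴ * pen A p * V q) *ᵥ Pi.single j 1) := by
      simp [Pi.star_single]
    rw [h1, star_mulVec, ← dotProduct_mulVec, mulVec_mulVec, mulVec_mulVec]
  have hcol : ∀ (i : Fin 2) (p : ℝ × ℂ), (pen A p).PosSemidef →
      (∑ q, (V q)ᴴ * pen A p * V q) i i = 0 → ∀ q, pen A p *ᵥ (V q *ᵥ Pi.single i 1) = 0 := by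
    intro i p hp h0 q
    rw [Matrix.sum_apply] at h0
    have h1 : ∑ q, ef A (V q *ᵥ Pi.single i 1) p = 0 := by
      have h2 : ((∑ q, ef A (V q *ᵥ Pi.single i 1) p : ℝ) : ℂ) = 0 := by
        push_cast
        rw [← h0]
        refine Finset.sum_congr rfl fun q _ => ?_
        rw [hentry, form_real]
      exact_mod_cast h2
    exact ef_zero hp ((Finset.sum_eq_zero_iff_of_nonneg (fun q _ => ef_nonneg hp)).1 h1 q
      (Finset.mem_univ q))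
  have hz₁ : ef A ξ p₁ = 0 := by
    rw [ef_apply, hk₁, dotProduct_zero, Complex.zero_re]
  have hz₂ : ef A η p₂ = 0 := by
    rw [ef_apply, hk₂, dotProduct_zero, Complex.zero_re]
  have hc₀ : ∀ q, ∃ d : ℂ, V q *ᵥ Pi.single 0 1 = d • ξ := fun q =>
    hs₁ _ (hcol 0 p₁ hp₁ (by rw [← hsum, hz₁]; simp) q)
  have hc₁ : ∀ q, ∃ d : ℂ, V q *ᵥ Pi.single 1 1 = d • η := fun q =>
    hs₂ _ (hcol 1 p₂ hp₂ (by rw [← hsum, hz₂]; simp) q)
  apply hω0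
  refine LinearMap.ext fun p => ?_
  have h1 : ((γ * ω p : ℝ) : ℂ) = 0 := by
    have h2 : ((γ * ω p : ℝ) : ℂ) = (∑ q, (V q)ᴴ * pen A p * V q) 0 1 := by
      rw [← hsum]
      simp
    rw [h2, Matrix.sum_apply]
    refine Finset.sum_eq_zero fun q _ => ?_
    obtain ⟨d, hd⟩ := hc₀ q
    obtain ⟨d', hd'⟩ := hc₁ q
    rw [hentry, hd, hd', mulVec_smul, dotProduct_smul, star_smul, smul_dotProduct, hcross,
      smul_zero, smul_zero]
  have h2 := Complex.ofReal_eq_zero.1 h1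
  rcases mul_eq_zero.1 h2 with h3 | h3
  · exact absurd h3 hγ.ne'
  · rw [h3]
    rfl

end Pool.Agent.K3h23.NR
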